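import Pool.Agent.Helper86.MG.Sep
import Pool.Agent.Helper54.InvDomain

/-! Essential compacta in the Hilbert cube `ℕ → unitInterval` (steps (2)-(6) of helper72's proof). -/

namespace Pool.Helper86.MG

open Set Filter Topology

/-- the Hilbert cube -/
abbrev HC := ℕ → unitInterval

/-- sign conditions for `g` at the two `j`-faces of `S` -/
def Sgn (S : Set HC) (j : ℕ) (g : C(HC, ℝ)) : Prop :=
  (∀ x ∈ S, x j = 0 → g x < 0) ∧ (∀ x ∈ S, x j = 1 → 0 < g x)

/-- `S` is essential in the coordinates `J` -/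
def Ess (S : Set HC) (J : Set ℕ) : Prop :=
  ∀ g : ℕ → C(HC, ℝ), (∀ j ∈ J, Sgn S j (g j)) → ∃ x ∈ S, ∀ j ∈ J, g j x = 0

theorem Sgn.mono {S T : Set HC} {j : ℕ} {g : C(HC, ℝ)} (h : Sgn T j g) (hST : S ⊆ T) : Sgn S j g :=
  ⟨fun x hx => h.1 x (hST hx), fun x hx => h.2 x (hST hx)⟩

/-- the centred coordinate -/
noncomputable def crd (j : ℕ) : C(HC, ℝ) := ⟨fun x => (x j : ℝ) - 1 / 2, by fun_prop⟩

theorem crd_zero {j : ℕ} {x : HC} (h : x j = 0) : crd j x = - (1 / 2) := by
  simp [crd, h]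

theorem crd_one {j : ℕ} {x : HC} (h : x j = 1) : crd j x = 1 / 2 := by
  simp only [crd, ContinuousMap.coe_mk, h]
  norm_num

theorem sgn_crd (S : Set HC) (j : ℕ) : Sgn S j (crd j) :=
  ⟨fun x _ hx => by rw [crd_zero hx]; norm_num, fun x _ hx => by rw [crd_one hx]; norm_num⟩

theorem Ess.mono {S T : Set HC} {J K : Set ℕ} (h : Ess S J) (hST : S ⊆ T) (hKJ : K ⊆ J) :
    Ess T K := by
  classical
  intro g hg
  obtain ⟨x, hx, hz⟩ := h (fun j => if j ∈ K then g j else crd j) (fun j hj => by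
    by_cases hjK : j ∈ K
    · simp only [hjK, if_true]
      exact (hg j hjK).mono hST
    · simp only [hjK, if_false]
      exact sgn_crd S j)
  refine ⟨x, hST hx, fun j hj => ?_⟩
  have := hz j (hKJ hj)
  simpa [hj] using this

theorem Ess.nonempty {S : Set HC} {J : Set ℕ} (h : Ess S J) : S.Nonempty := by
  obtain ⟨x, hx, _⟩ := h crd (fun j _ => sgn_crd S j)
  exact ⟨x, hx⟩

theorem bound {K : Set HC} (hK : IsClosed K) (g ρ : C(HC, ℝ)) (hρ : ∀ x ∈ K, 0 < ρ x) :
    ∃ C : ℝ, 0 ≤ C ∧ ∀ x ∈ K, g x < C * ρ x := by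
  have hc : ContinuousOn (fun x => g x / ρ x) K :=
    g.continuous.continuousOn.div ρ.continuous.continuousOn (fun x hx => (hρ x hx).ne')
  obtain ⟨C, hC⟩ := hK.isCompact.bddAbove_image hc
  refine ⟨max C 0 + 1, by positivity, fun x hx => ?_⟩
  have h1 : g x / ρ x ≤ C := hC ⟨x, hx, rfl⟩
  have h2 : g x / ρ x < max C 0 + 1 := by
    have := le_max_left C 0
    linarith
  exact (div_lt_iff₀ (hρ x hx)).1 h2

/-- **Lemma M** (repair). -/
theorem repair {S : Set HC} (hS : IsClosed S) {ρ : C(HC, ℝ)} (hρ : ∀ x, 0 ≤ ρ x) {j : ℕ}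
    {g : C(HC, ℝ)} (hg : Sgn (S ∩ {x | ρ x = 0}) j g) :
    ∃ l : ℝ, Sgn S j (g + l • (ρ * crd j)) := by
  have hpos : ∀ x, ρ x ≠ 0 → 0 < ρ x := fun x hx => lt_of_le_of_ne (hρ x) (Ne.symm hx)
  have c0 : IsClosed {x : HC | x j = 0} := isClosed_eq (by fun_prop) continuous_const
  have c1 : IsClosed {x : HC | x j = 1} := isClosed_eq (by fun_prop) continuous_const
  obtain ⟨A, hA0, hA⟩ := bound (K := S ∩ {x | x j = 0} ∩ {x | 0 ≤ g x})
    ((hS.inter c0).inter (isClosed_le continuous_const g.continuous)) g ρ (by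
      rintro x ⟨⟨hxS, hx0⟩, hxg⟩
      refine hpos x (fun h => ?_)
      exact absurd (hg.1 x ⟨hxS, h⟩ hx0) (not_lt.2 hxg))
  obtain ⟨B, hB0, hB⟩ := bound (K := S ∩ {x | x j = 1} ∩ {x | g x ≤ 0})
    ((hS.inter c1).inter (isClosed_le g.continuous continuous_const)) (-g) ρ (by
      rintro x ⟨⟨hxS, hx1⟩, hxg⟩
      refine hpos x (fun h => ?_)
      exact absurd (hg.2 x ⟨hxS, h⟩ hx1) (not_lt.2 hxg))
  refine ⟨2 * (A + B), ?_, ?_⟩
  · intro x hxS hx0
    simp only [ContinuousMap.add_apply, ContinuousMap.smul_apply, ContinuousMap.mul_apply,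
      smul_eq_mul, crd_zero hx0]
    have hr := hρ x
    by_cases hgx : 0 ≤ g x
    · have := hA x ⟨⟨hxS, hx0⟩, hgx⟩
      nlinarith [mul_nonneg hB0 hr]
    · push Not at hgx
      nlinarith [mul_nonneg hB0 hr, mul_nonneg hA0 hr]
  · intro x hxS hx1
    simp only [ContinuousMap.add_apply, ContinuousMap.smul_apply, ContinuousMap.mul_apply,
      smul_eq_mul, crd_one hx1]
    have hr := hρ x
    by_cases hgx : g x ≤ 0
    · have := hB x ⟨⟨hxS, hx1⟩, hgx⟩
      simp only [ContinuousMap.neg_apply] at this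
      nlinarith [mul_nonneg hA0 hr]
    · push Not at hgx
      nlinarith [mul_nonneg hB0 hr, mul_nonneg hA0 hr]

/-- **Cut.** -/
theorem cut {S : Set HC} (hS : IsClosed S) {J : Set ℕ} (hE : Ess S J) {j : ℕ} (hj : j ∈ J)
    {W : ℕ → Set HC} (hW : ∀ n, IsClosed (W n)) (hnull : NullFam W)
    (hd : Pairwise (fun m n => Disjoint (W m) (W n)))
    (hfree : ∀ n, (W n ∩ (S ∩ {x | x j = 0})).Nonempty → (W n ∩ (S ∩ {x | x j = 1})).Nonempty → False) :
    ∃ S' ⊆ S, IsClosed S' ∧ (∀ n, Disjoint S' (W n)) ∧ Ess S' (J \ {j}) := by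
  classical
  have c0 : IsClosed {x : HC | x j = 0} := isClosed_eq (by fun_prop) continuous_const
  have c1 : IsClosed {x : HC | x j = 1} := isClosed_eq (by fun_prop) continuous_const
  obtain ⟨g, g0, g1, gW⟩ := sep (hS.inter c0) (hS.inter c1) (by
    rw [Set.disjoint_left]
    rintro x ⟨_, h0⟩ ⟨_, h1⟩
    have : (0 : unitInterval) = 1 := by rw [← (h0 : x j = 0), (h1 : x j = 1)]
    exact zero_ne_one this) hW hnull hd hfree
  refine ⟨S ∩ {x | g x = 0}, Set.inter_subset_left,
    hS.inter (isClosed_eq g.continuous continuous_const), ?_, ?_⟩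
  · intro n
    rw [Set.disjoint_left]
    rintro x ⟨_, hx⟩ hxW
    exact gW n x hxW hx
  · intro G hG
    set ρ : C(HC, ℝ) := ⟨fun x => |g x|, by fun_prop⟩ with hρdef
    have hρ : ∀ x, 0 ≤ ρ x := fun x => abs_nonneg _
    have hρ0 : ∀ x, ρ x = 0 ↔ g x = 0 := fun x => abs_eq_zero
    have hset : {x | ρ x = 0} = {x | g x = 0} := by
      ext x; exact hρ0 x
    have hrep : ∀ i, ∃ l : ℝ, i ∈ J \ {j} → Sgn S i (G i + l • (ρ * crd i)) := by
      intro i
      by_cases hi : i ∈ J \ {j}
      · obtain ⟨l, hl⟩ := repair hS hρ (j := i) (g := G i) (by rw [hset]; exact hG i hi)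
        exact ⟨l, fun _ => hl⟩
      · exact ⟨0, fun h => absurd h hi⟩
    choose l hl using hrep
    obtain ⟨x, hxS, hx⟩ := hE (fun i => if i = j then g else G i + l i • (ρ * crd i)) (by
      intro i hi
      by_cases hij : i = j
      · subst hij
        simp only [if_true]
        exact ⟨fun x hx h => g0 x ⟨hx, h⟩, fun x hx h => g1 x ⟨hx, h⟩⟩
      · simp only [hij, if_false]
        exact hl i ⟨hi, hij⟩)
    have hgx : g x = 0 := by
      have := hx j hj
      simpa using this
    refine ⟨x, ⟨hxS, hgx⟩, fun i hi => ?_⟩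
    have h1 := hx i hi.1
    have hij : i ≠ j := hi.2
    simp only [hij, if_false, ContinuousMap.add_apply, ContinuousMap.smul_apply,
      ContinuousMap.mul_apply, smul_eq_mul] at h1
    rw [(hρ0 x).2 hgx] at h1
    simpa using h1

/-- **Sum lemma.** -/
theorem sum_lemma {S : Set HC} (hS : IsClosed S) {J : Set ℕ} (hE : Ess S J) {ρ : ℕ → C(HC, ℝ)}
    (hρ : ∀ n x, 0 ≤ ρ n x) (hcov : ∀ x ∈ S, ∃ n, ρ n x = 0) {K : ℕ → Set ℕ}
    (hK : ∀ n, K n ⊆ J) (hd : Pairwise (fun m n => Disjoint (K m) (K n))) :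
    ∃ n, Ess (S ∩ {x | ρ n x = 0}) (K n) := by
  classical
  by_contra hcon
  push Not at hcon
  have h1 : ∀ n, ∃ g : ℕ → C(HC, ℝ), (∀ j ∈ K n, Sgn (S ∩ {x | ρ n x = 0}) j (g j)) ∧
      ∀ x ∈ S ∩ {x | ρ n x = 0}, ∃ j ∈ K n, g j x ≠ 0 := by
    intro n
    have := hcon n
    unfold Ess at this
    push Not at this
    obtain ⟨g, hg, hg'⟩ := this
    exact ⟨g, hg, hg'⟩
  choose g hg hg' using h1
  have h2 : ∀ n i, ∃ l : ℝ, i ∈ K n → Sgn S i (g n i + l • (ρ n * crd i)) := by
    intro n i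
    by_cases hi : i ∈ K n
    · obtain ⟨l, hl⟩ := repair hS (hρ n) (hg n i hi)
      exact ⟨l, fun _ => hl⟩
    · exact ⟨0, fun h => absurd h hi⟩
  choose l hl using h2
  have hgood : ∀ i, ∃ G : C(HC, ℝ), Sgn S i G ∧
      ∀ n, i ∈ K n → G = g n i + l n i • (ρ n * crd i) := by
    intro i
    by_cases hi : ∃ n, i ∈ K n
    · obtain ⟨n, hn⟩ := hi
      refine ⟨_, hl n i hn, fun m hm => ?_⟩
      by_cases hmn : m = n
      · subst hmn; rfl
      · exact absurd hn (Set.disjoint_left.1 (hd hmn) hm)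
    · push Not at hi
      exact ⟨crd i, sgn_crd S i, fun n hn => absurd hn (hi n)⟩
  choose G hG hG' using hgood
  obtain ⟨x, hxS, hx⟩ := hE G (fun j _ => hG j)
  obtain ⟨n, hn⟩ := hcov x hxS
  obtain ⟨j, hj, hjx⟩ := hg' n x ⟨hxS, hn⟩
  apply hjx
  have h3 := hx j (hK n hj)
  rw [hG' j n hj] at h3
  simp only [ContinuousMap.add_apply, ContinuousMap.smul_apply, ContinuousMap.mul_apply,
      smul_eq_mul, hn] at h3
  simpa using h3

/-- replace the coordinate `i` by `c` -/
noncomputable def tau (i : ℕ) (c : unitInterval) (x : HC) : HC := Function.update x i c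

theorem continuous_tau (i : ℕ) (c : unitInterval) : Continuous (tau i c) := by
  unfold tau
  exact continuous_id.update i continuous_const

/-- **Translation.** -/
theorem Ess.tau {S : Set HC} {J : Set ℕ} (hE : Ess S J) {i : ℕ} (hi : i ∉ J) (c : unitInterval) :
    Ess (tau i c '' S) J := by
  intro g hg
  have hc := continuous_tau i c
  obtain ⟨x, hxS, hx⟩ := hE (fun j => (g j).comp ⟨MG.tau i c, hc⟩) (by
    intro j hj
    have hij : j ≠ i := fun h => hi (h ▸ hj)
    have hco : ∀ x, MG.tau i c x j = x j := fun x => by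
      unfold MG.tau
      exact Function.update_of_ne hij _ _
    refine ⟨fun x hx h => ?_, fun x hx h => ?_⟩
    · exact (hg j hj).1 _ ⟨x, hx, rfl⟩ ((hco x).trans h)
    · exact (hg j hj).2 _ ⟨x, hx, rfl⟩ ((hco x).trans h))
  exact ⟨_, ⟨x, hxS, rfl⟩, hx⟩

/-- Poincare-Miranda (strict signs) -/
theorem miranda (n : ℕ) (h : Fin n → (Fin n → unitInterval) → ℝ) (hc : ∀ i, Continuous (h i))
    (h0 : ∀ i x, x i = 0 → h i x < 0) (h1 : ∀ i x, x i = 1 → 0 < h i x) :
    ∃ x : Fin n → unitInterval, ∀ i, h i x = 0 := by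
  set c : ℝ := n + 1 with hcdef
  have hcpos : 0 < c := by positivity
  let P : ℝ → unitInterval := fun t => Set.projIcc (0 : ℝ) 1 zero_le_one t
  have hP : Continuous P := continuous_projIcc
  let p : EuclideanSpace ℝ (Fin n) → (Fin n → unitInterval) := fun x i => P (c * x i)
  have hp : Continuous p := by
    refine continuous_pi (fun i => hP.comp ?_)
    fun_prop
  let F : EuclideanSpace ℝ (Fin n) → EuclideanSpace ℝ (Fin n) := fun x =>
    WithLp.toLp 2 (fun i => (1 / c) * (P ((p x i : ℝ) - h i (p x)) : ℝ))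
  have hF : Continuous F := by
    refine (PiLp.continuous_toLp 2 _).comp (continuous_pi (fun i => ?_))
    refine continuous_const.mul (continuous_subtype_val.comp (hP.comp ?_))
    exact (continuous_subtype_val.comp ((continuous_apply i).comp hp)).sub ((hc i).comp hp)
  obtain ⟨x, -, hx⟩ := Pool.Agent.Helper54.brouwer (F := F) hF.continuousOn (by
    intro x _
    rw [Metric.mem_closedBall, dist_zero_right, EuclideanSpace.norm_eq]
    rw [Real.sqrt_le_one]
    have hterm : ∀ i, ‖(F x) i‖ ^ 2 ≤ (1 / c) ^ 2 := by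
      intro i
      have h3 : (F x) i = (1 / c) * (P ((p x i : ℝ) - h i (p x)) : ℝ) := rfl
      rw [h3, Real.norm_eq_abs, sq_abs, mul_pow]
      have h4 := (P ((p x i : ℝ) - h i (p x))).2.1
      have h5 := (P ((p x i : ℝ) - h i (p x))).2.2
      have h6 : ((P ((p x i : ℝ) - h i (p x)) : unitInterval) : ℝ) ^ 2 ≤ 1 := by nlinarith
      nlinarith [sq_nonneg (1 / c)]
    calc ∑ i, ‖(F x) i‖ ^ 2 ≤ ∑ _i : Fin n, (1 / c) ^ 2 := Finset.sum_le_sum (fun i _ => hterm i)
      _ = n * (1 / c) ^ 2 := by rw [Finset.sum_const, Finset.card_univ, Fintype.card_fin, nsmul_eq_mul]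
      _ ≤ 1 := by
        rw [div_pow, one_pow, mul_one_div, div_le_one (by positivity)]
        rw [hcdef]
        have : (0 : ℝ) ≤ n := by positivity
        nlinarith)
  refine ⟨p x, fun i => ?_⟩
  have hxi : x i = (1 / c) * (P ((p x i : ℝ) - h i (p x)) : ℝ) := by
    conv_lhs => rw [← hx]
  have hcx : c * x i = (P ((p x i : ℝ) - h i (p x)) : ℝ) := by
    rw [hxi]; field_simp
  have hpi : p x i = P ((p x i : ℝ) - h i (p x)) := by
    have h3 : p x i = P (c * x i) := rfl
    have h4 : P (c * x i) = P ((P ((p x i : ℝ) - h i (p x)) : unitInterval) : ℝ) := by rw [hcx]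
    exact h3.trans (h4.trans (Set.projIcc_val (zero_le_one : (0:ℝ) ≤ 1) _))
  by_cases hz : p x i = 0
  · exfalso
    have h3 := h0 i (p x) hz
    rw [hz] at hpi
    have h4 : (P (((0 : unitInterval) : ℝ) - h i (p x)) : ℝ) = 0 := by
      rw [← hpi]; rfl
    simp only [P, Set.coe_projIcc] at h4
    have h5 : (0 : ℝ) < min 1 (((0 : unitInterval) : ℝ) - h i (p x)) := by
      refine lt_min one_pos ?_
      simp only [Set.Icc.coe_zero]
      linarith
    have h6 := le_max_right 0 (min 1 (((0 : unitInterval) : ℝ) - h i (p x)))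
    linarith
  · by_cases ho : p x i = 1
    · exfalso
      have h3 := h1 i (p x) ho
      rw [ho] at hpi
      have h4 : (P (((1 : unitInterval) : ℝ) - h i (p x)) : ℝ) = 1 := by
        rw [← hpi]; rfl
      simp only [P, Set.coe_projIcc] at h4
      have h5 : min 1 (((1 : unitInterval) : ℝ) - h i (p x)) < 1 := by
        refine min_lt_of_right_lt ?_
        simp only [Set.Icc.coe_one]
        linarith
      have h6 : max 0 (min 1 (((1 : unitInterval) : ℝ) - h i (p x))) < 1 := max_lt one_pos h5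
      linarith
    · have hlt0 : (0 : ℝ) < (p x i : ℝ) := by
        refine lt_of_le_of_ne (p x i).2.1 (fun h => hz ?_)
        exact Subtype.ext h.symm
      have hlt1 : (p x i : ℝ) < 1 := by
        refine lt_of_le_of_ne (p x i).2.2 (fun h => ho ?_)
        exact Subtype.ext h
      have h4 : (p x i : ℝ) = max 0 (min 1 ((p x i : ℝ) - h i (p x))) := by
        conv_lhs => rw [hpi]
        simp only [P, Set.coe_projIcc]
      rcases le_total (0 : ℝ) (min 1 ((p x i : ℝ) - h i (p x))) with h5 | h5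
      · rw [max_eq_right h5] at h4
        rcases le_total (1 : ℝ) ((p x i : ℝ) - h i (p x)) with h6 | h6
        · rw [min_eq_left h6] at h4; linarith
        · rw [min_eq_right h6] at h4; linarith
      · rw [max_eq_left h5] at h4; linarith

/-- the Hilbert cube is essential -/
theorem ess_univ : Ess Set.univ Set.univ := by
  classical
  intro g hg
  have hZ : (⋂ n : ℕ, {x : HC | ∀ j < n, g j x = 0}).Nonempty := by
    refine IsCompact.nonempty_iInter_of_sequence_nonempty_isCompact_isClosed _ ?_ ?_ ?_ ?_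
    · intro n x hx j hj
      exact hx j (by omega)
    · intro n
      let e : (Fin n → unitInterval) → HC := fun y j => if hj : j < n then y ⟨j, hj⟩ else 0
      have he : Continuous e := by
        refine continuous_pi (fun j => ?_)
        by_cases hj : j < n
        · simp only [e, hj, dif_pos]
          exact continuous_apply _
        · simp only [e, hj, dif_neg, not_false_eq_true]
          exact continuous_const
      obtain ⟨y, hy⟩ := miranda n (fun i y => g i (e y)) (fun i => (g i).continuous.comp he)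
        (fun i y hy => (hg i (Set.mem_univ _)).1 _ (Set.mem_univ _) (by
          simp only [e, i.2, dif_pos]; exact hy))
        (fun i y hy => (hg i (Set.mem_univ _)).2 _ (Set.mem_univ _) (by
          simp only [e, i.2, dif_pos]; exact hy))
      exact ⟨e y, fun j hj => hy ⟨j, hj⟩⟩
    · have : {x : HC | ∀ j < 0, g j x = 0} = Set.univ := by
        ext x; simp
      rw [this]
      exact isCompact_univ
    · intro n
      have : {x : HC | ∀ j < n, g j x = 0} = ⋂ j, ⋂ (_ : j < n), {x | g j x = 0} := by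
        ext x; simp
      rw [this]
      exact isClosed_iInter (fun j => isClosed_iInter (fun _ =>
        isClosed_eq (g j).continuous continuous_const))
  obtain ⟨x, hx⟩ := hZ
  rw [Set.mem_iInter] at hx
  exact ⟨x, Set.mem_univ x, fun j _ => hx (j + 1) j (by omega)⟩

end Pool.Helper86.MG
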