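import Pool.Agent.Helper86.MG.Ess

/-! The induction (7)-(8) of helper72's proof for MP_01be47_gt. -/

namespace Pool.Helper86.MG

open Set Filter Topology

/-- only finitely many members of a null family meet both `j`-faces -/
theorem finite_both {W : ℕ → Set HC} (hnull : NullFam W) (j : ℕ) :
    ∃ N, ∀ n ≥ N, (W n ∩ {x | x j = 0}).Nonempty → (W n ∩ {x | x j = 1}).Nonempty → False := by
  classical
  have h1 : ∀ x : HC, ∃ V ∈ 𝓝 x, ∃ N, ∀ n ≥ N, (W n ∩ V).Nonempty →
      W n ⊆ {y : HC | |(y j : ℝ) - x j| < 1 / 2} := by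
    intro x
    refine hnull x _ ?_
    have hc : Continuous (fun y : HC => |(y j : ℝ) - x j|) := by fun_prop
    refine (isOpen_lt hc continuous_const).mem_nhds ?_
    simp
  choose V hV N hN using h1
  obtain ⟨t, ht⟩ := isCompact_univ.elim_nhds_subcover V (fun x _ => hV x)
  refine ⟨t.sup N, ?_⟩
  rintro n hn ⟨y, hyW, hy⟩ ⟨z, hzW, hz⟩
  have hyt := ht.2 (mem_univ y)
  simp only [mem_iUnion, exists_prop] at hyt
  obtain ⟨x, hx, hyx⟩ := hyt
  have h2 := hN x n ((Finset.le_sup hx).trans hn) ⟨y, hyW, hyx⟩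
  have h3 := h2 hyW
  have h4 := h2 hzW
  simp only [mem_setOf_eq] at h3 h4 hy hz
  rw [hy] at h3
  rw [hz] at h4
  simp only [Set.Icc.coe_zero, Set.Icc.coe_one] at h3 h4
  rw [abs_lt] at h3 h4
  linarith [h3.1, h3.2, h4.1, h4.2]

/-- re-cutting with finitely many null families, each with a fresh coordinate -/
theorem recut {S : Set HC} (hS : IsClosed S) {J : Set ℕ} (hE : Ess S J) {W : ℕ → ℕ → Set HC}
    (hW : ∀ i l, IsClosed (W i l)) (hnull : ∀ i, NullFam (W i))
    (hd : ∀ i, Pairwise (fun m n => Disjoint (W i m) (W i n))) {f : ℕ → ℕ}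
    (hf : Function.Injective f) (hfJ : ∀ i, f i ∈ J) (n : ℕ)
    (hfree : ∀ i < n, ∀ l, (W i l ∩ (S ∩ {x | x (f i) = 0})).Nonempty →
      (W i l ∩ (S ∩ {x | x (f i) = 1})).Nonempty → False) :
    ∃ S' ⊆ S, IsClosed S' ∧ (∀ i < n, ∀ l, Disjoint S' (W i l)) ∧ Ess S' (J \ f '' (Iio n)) := by
  induction n with
  | zero =>
    refine ⟨S, Subset.rfl, hS, fun i hi => absurd hi (Nat.not_lt_zero _), hE.mono Subset.rfl diff_subset⟩
  | succ n ih =>
    obtain ⟨S', hS'S, hS', hdis, hE'⟩ := ih (fun i hi => hfree i (hi.trans (Nat.lt_succ_self n)))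
    have hmem : f n ∈ J \ f '' (Iio n) := by
      refine ⟨hfJ n, ?_⟩
      rintro ⟨i, hi, hin⟩
      have := hf hin
      simp only [mem_Iio] at hi
      omega
    obtain ⟨S'', h1, h2, h3, h4⟩ := cut hS' hE' hmem (hW n) (hnull n) (hd n) (by
      intro l ha hb
      refine hfree n (Nat.lt_succ_self n) l ?_ ?_
      · exact ha.mono (inter_subset_inter_right _ (inter_subset_inter_left _ hS'S))
      · exact hb.mono (inter_subset_inter_right _ (inter_subset_inter_left _ hS'S)))
    refine ⟨S'', h1.trans hS'S, h2, ?_, h4.mono Subset.rfl ?_⟩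
    · intro i hi l
      rcases Nat.lt_succ_iff_lt_or_eq.1 hi with hi | rfl
      · exact (hdis i hi l).mono_left h1
      · exact h3 l
    · rintro j ⟨hj, hj2⟩
      refine ⟨⟨hj, fun h => hj2 (image_mono (Iio_subset_Iio (Nat.le_succ n)) h)⟩, ?_⟩
      rintro rfl
      exact hj2 ⟨n, Nat.lt_succ_self n, rfl⟩

/-- state of the induction -/
structure St (V : ℕ → ℕ → ℕ → Set HC) (n : ℕ) where
  u : ℕ → ℝ
  v : ℕ → ℝ
  kk : ℕ → ℕ
  S : Set HC
  J : Set ℕ
  hu0 : ∀ j, 0 ≤ u j
  huv : ∀ j, u j < v j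
  hv1 : ∀ j, v j ≤ 1
  hS : IsClosed S
  hbox : ∀ x ∈ S, ∀ j, u j ≤ (x j : ℝ) ∧ (x j : ℝ) ≤ v j
  hmiss : ∀ i < n, ∀ l, Disjoint S (closure (V i (kk i) l))
  hJ : J.Infinite
  hE : Ess S J

/-- the pieces off the wall -/
noncomputable def pc (j0 : ℕ) (q : ℝ) : ℕ → C(HC, ℝ)
  | 0 => ⟨fun x => |(x j0 : ℝ) - q|, by fun_prop⟩
  | (m + 1) => ⟨fun x => max (if m % 2 = 0 then (q + 1 / ((m / 2 : ℕ) + 1)) - (x j0 : ℝ)
      else (x j0 : ℝ) - (q - 1 / ((m / 2 : ℕ) + 1))) 0, by
      split_ifs
      · fun_prop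
      · fun_prop⟩

theorem pc_nonneg (j0 : ℕ) (q : ℝ) (n : ℕ) (x : HC) : 0 ≤ pc j0 q n x := by
  cases n with
  | zero => exact abs_nonneg _
  | succ m => exact le_max_right _ _

theorem pc_zero {j0 : ℕ} {q : ℝ} {x : HC} (h : pc j0 q 0 x = 0) : (x j0 : ℝ) = q := by
  have : |(x j0 : ℝ) - q| = 0 := h
  rw [abs_eq_zero] at this
  linarith

theorem pc_succ (j0 : ℕ) (q : ℝ) (m : ℕ) : ∃ δ : ℝ, 0 < δ ∧
    ((∀ x, pc j0 q (m + 1) x = 0 → q + δ ≤ (x j0 : ℝ)) ∨
      (∀ x, pc j0 q (m + 1) x = 0 → (x j0 : ℝ) ≤ q - δ)) := by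
  refine ⟨1 / ((m / 2 : ℕ) + 1), by positivity, ?_⟩
  by_cases hm : m % 2 = 0
  · left
    intro x hx
    have h1 : max (if m % 2 = 0 then (q + 1 / ((m / 2 : ℕ) + 1)) - (x j0 : ℝ)
      else (x j0 : ℝ) - (q - 1 / ((m / 2 : ℕ) + 1))) 0 = 0 := hx
    rw [if_pos hm] at h1
    have := le_max_left ((q + 1 / ((m / 2 : ℕ) + 1)) - (x j0 : ℝ)) 0
    rw [h1] at this
    linarith
  · right
    intro x hx
    have h1 : max (if m % 2 = 0 then (q + 1 / ((m / 2 : ℕ) + 1)) - (x j0 : ℝ)
      else (x j0 : ℝ) - (q - 1 / ((m / 2 : ℕ) + 1))) 0 = 0 := hx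
    rw [if_neg hm] at h1
    have := le_max_left ((x j0 : ℝ) - (q - 1 / ((m / 2 : ℕ) + 1))) 0
    rw [h1] at this
    linarith

theorem pc_cover (j0 : ℕ) (q : ℝ) (x : HC) : ∃ n, pc j0 q n x = 0 := by
  rcases lt_trichotomy (x j0 : ℝ) q with h | h | h
  · obtain ⟨k, hk⟩ := exists_nat_one_div_lt (show (0 : ℝ) < q - x j0 by linarith)
    refine ⟨2 * k + 1 + 1, ?_⟩
    show max (if (2 * k + 1) % 2 = 0 then (q + 1 / (((2 * k + 1) / 2 : ℕ) + 1)) - (x j0 : ℝ)
      else (x j0 : ℝ) - (q - 1 / (((2 * k + 1) / 2 : ℕ) + 1))) 0 = 0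
    rw [if_neg (by omega), show (2 * k + 1) / 2 = k by omega]
    exact max_eq_right (by linarith)
  · exact ⟨0, by show |(x j0 : ℝ) - q| = 0; rw [h]; simp⟩
  · obtain ⟨k, hk⟩ := exists_nat_one_div_lt (show (0 : ℝ) < x j0 - q by linarith)
    refine ⟨2 * k + 1, ?_⟩
    show max (if (2 * k) % 2 = 0 then (q + 1 / (((2 * k) / 2 : ℕ) + 1)) - (x j0 : ℝ)
      else (x j0 : ℝ) - (q - 1 / (((2 * k) / 2 : ℕ) + 1))) 0 = 0
    rw [if_pos (by omega), show (2 * k) / 2 = k by omega]
    exact max_eq_right (by linarith)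

/-- splitting an infinite set of coordinates into infinitely many infinite sets -/
theorem split_inf {J : Set ℕ} (hJ : J.Infinite) : ∃ K : ℕ → Set ℕ, (∀ n, K n ⊆ J) ∧
    (∀ n, (K n).Infinite) ∧ Pairwise (fun m n => Disjoint (K m) (K n)) := by
  classical
  let e : ℕ → ℕ := fun n => (hJ.natEmbedding J n : ℕ)
  have he : Function.Injective e := Subtype.val_injective.comp (hJ.natEmbedding J).injective
  have heJ : ∀ n, e n ∈ J := fun n => (hJ.natEmbedding J n).2
  refine ⟨fun n => Set.range (fun l => e (Nat.pair n l)), ?_, ?_, ?_⟩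
  · rintro n _ ⟨l, rfl⟩
    exact heJ _
  · intro n
    refine Set.infinite_range_of_injective ?_
    intro a b hab
    have := he hab
    have h2 := congrArg Nat.unpair this
    simpa using h2
  · intro m n hmn
    rw [Set.disjoint_left]
    rintro _ ⟨a, rfl⟩ ⟨b, hb⟩
    have := he hb
    have h2 := congrArg Nat.unpair this
    simp only [Nat.unpair_pair, Prod.mk.injEq] at h2
    exact hmn h2.1.symm

/-- moving a compact set off a wall without hitting a closed set -/
theorem move {S C : Set HC} (hS : IsClosed S) (hC : IsClosed C) (hd : Disjoint S C) {j0 : ℕ}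
    {q : ℝ} (hq : ∀ x ∈ S, (x j0 : ℝ) = q) (hne : S.Nonempty) :
    ∃ ε > (0 : ℝ), ∀ c : unitInterval, |(c : ℝ) - q| < ε → Disjoint (tau j0 c '' S) C := by
  classical
  obtain ⟨x0, hx0⟩ := hne
  have hcont : Continuous (fun p : unitInterval × HC => tau j0 p.1 p.2) := by
    unfold tau
    exact continuous_snd.update j0 continuous_fst
  have h1 : ∀ᶠ c in 𝓝 (x0 j0), ∀ y ∈ S, tau j0 c y ∉ C := by
    refine hS.isCompact.eventually_forall_of_forall_eventually ?_
    intro y hy
    have hy0 : tau j0 (x0 j0) y = y := by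
      unfold tau
      have : y j0 = x0 j0 := Subtype.ext ((hq y hy).trans (hq x0 hx0).symm)
      rw [← this]
      exact Function.update_eq_self _ _
    have h2 : (fun p : unitInterval × HC => tau j0 p.1 p.2) (x0 j0, y) ∈ Cᶜ := by
      show tau j0 (x0 j0) y ∈ Cᶜ
      rw [hy0]
      exact Set.disjoint_left.1 hd hy
    exact (hcont.tendsto _).eventually (hC.isOpen_compl.mem_nhds h2)
  rw [Metric.eventually_nhds_iff] at h1
  obtain ⟨ε, hε, h2⟩ := h1
  refine ⟨ε, hε, fun c hc => ?_⟩
  rw [Set.disjoint_left]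
  rintro _ ⟨y, hy, rfl⟩ hyC
  refine h2 ?_ y hy hyC
  rw [Subtype.dist_eq, Real.dist_eq, hq x0 hx0]
  exact hc

/-- a value off the wall inside the side of the box -/
theorem off {u v q ε : ℝ} (huv : u < v) (h1 : u ≤ q) (h2 : q ≤ v) (hε : 0 < ε) :
    ∃ c u' v' : ℝ, |c - q| < ε ∧ u ≤ u' ∧ v' ≤ v ∧ u' < v' ∧ u' ≤ c ∧ c ≤ v' ∧
      (q < u' ∨ v' < q) := by
  rcases lt_or_eq_of_le h2 with h | h
  · have hm : 0 < min (ε / 2) ((v - q) / 2) := lt_min (by linarith) (by linarith)
    have hm1 := min_le_left (ε / 2) ((v - q) / 2)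
    have hm2 := min_le_right (ε / 2) ((v - q) / 2)
    refine ⟨q + min (ε / 2) ((v - q) / 2), q + min (ε / 2) ((v - q) / 2) / 2, v, ?_, by linarith,
      le_rfl, by linarith, by linarith, by linarith, Or.inl (by linarith)⟩
    rw [add_sub_cancel_left, abs_of_pos hm]
    linarith
  · have hm : 0 < min (ε / 2) ((q - u) / 2) := lt_min (by linarith) (by linarith)
    have hm1 := min_le_left (ε / 2) ((q - u) / 2)
    have hm2 := min_le_right (ε / 2) ((q - u) / 2)
    refine ⟨q - min (ε / 2) ((q - u) / 2), u, q - min (ε / 2) ((q - u) / 2) / 2, ?_, le_rfl,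
      by linarith, by linarith, by linarith, by linarith, Or.inr (by linarith)⟩
    rw [show q - min (ε / 2) ((q - u) / 2) - q = - min (ε / 2) ((q - u) / 2) by ring, abs_neg,
      abs_of_pos hm]
    linarith

section Step

variable {V : ℕ → ℕ → ℕ → Set HC}

/-- the wall step -/
theorem wall (hdisj : ∀ i k, Pairwise (fun m n => Disjoint (closure (V i k m)) (closure (V i k n))))
    (hnull : ∀ i k, NullFam (fun n => closure (V i k n))) {n : ℕ} (s : St V n) (j0 : ℕ) (q : ℝ) :
    ∃ s' : St V n, s'.kk = s.kk ∧ (∀ j, s.u j ≤ s'.u j) ∧ (∀ j, s'.v j ≤ s.v j) ∧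
      (q < s'.u j0 ∨ s'.v j0 < q) := by
  classical
  have hJ2 : (s.J \ {j0}).Infinite := s.hJ.diff (Set.finite_singleton j0)
  obtain ⟨K, hK1, hK2, hK3⟩ := split_inf hJ2
  have hE2 : Ess s.S (s.J \ {j0}) := s.hE.mono Subset.rfl diff_subset
  obtain ⟨m, hm⟩ := sum_lemma s.hS hE2 (pc_nonneg j0 q) (fun x _ => pc_cover j0 q x) hK1 hK3
  have hcl : IsClosed (s.S ∩ {x | pc j0 q m x = 0}) :=
    s.hS.inter (isClosed_eq (pc j0 q m).continuous continuous_const)
  obtain ⟨x1, hx1S, hx1⟩ := hm.nonempty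
  cases m with
  | zero =>
    -- on the wall
    have hx1q : (x1 j0 : ℝ) = q := pc_zero hx1
    let f : ℕ → ℕ := fun n => ((hK2 0).natEmbedding (K 0) n : ℕ)
    have hf : Function.Injective f := Subtype.val_injective.comp ((hK2 0).natEmbedding (K 0)).injective
    have hfJ : ∀ n, f n ∈ K 0 := fun n => ((hK2 0).natEmbedding (K 0) n).2
    let W : ℕ → ℕ → Set HC := fun i l => closure (V i (s.kk i) l)
    have hN := fun i => finite_both (hnull i (s.kk i)) (f i)
    choose N hN using hN
    let C : Set HC := ⋃ i ∈ Finset.range n, ⋃ l ∈ Finset.range (N i), W i l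
    have hC : IsClosed C := by
      refine (Finset.range n).finite_toSet.isClosed_biUnion (fun i _ => ?_)
      exact (Finset.range (N i)).finite_toSet.isClosed_biUnion (fun l _ => isClosed_closure)
    have hdC : Disjoint (s.S ∩ {x | pc j0 q 0 x = 0}) C := by
      rw [Set.disjoint_left]
      rintro x ⟨hx, -⟩ hxC
      simp only [C, mem_iUnion, Finset.mem_range, exists_prop] at hxC
      obtain ⟨i, hi, l, -, hxW⟩ := hxC
      exact Set.disjoint_left.1 (s.hmiss i hi l) hx hxW
    obtain ⟨ε, hε, hmv⟩ := move hcl hC hdC (fun x hx => pc_zero hx.2) ⟨x1, hx1S, hx1⟩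
    have hb := s.hbox x1 hx1S j0
    rw [hx1q] at hb
    obtain ⟨c, u', v', hcq, huu, hvv, huv', huc, hcv, hq⟩ := off (s.huv j0) hb.1 hb.2 hε
    have hc01 : c ∈ Set.Icc (0 : ℝ) 1 :=
      ⟨((s.hu0 j0).trans huu).trans huc, (hcv.trans hvv).trans (s.hv1 j0)⟩
    have hj0 : j0 ∉ K 0 := fun h => (hK1 0 h).2 rfl
    have hE3 := hm.tau hj0 ⟨c, hc01⟩
    have hcl3 : IsClosed (tau j0 ⟨c, hc01⟩ '' (s.S ∩ {x | pc j0 q 0 x = 0})) :=
      (hcl.isCompact.image (continuous_tau _ _)).isClosed
    have hdis3 := hmv ⟨c, hc01⟩ hcq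
    obtain ⟨S', hS'S, hS', hdS', hES'⟩ := recut hcl3 hE3 (W := W) (fun _ _ => isClosed_closure)
      (fun i => hnull i _) (fun i => hdisj i _) hf hfJ n (by
        rintro i hi l ⟨y, hyW, hyS, hy⟩ ⟨z, hzW, hzS, hz⟩
        by_cases hl : l < N i
        · refine Set.disjoint_left.1 hdis3 hyS ?_
          simp only [C, mem_iUnion, Finset.mem_range, exists_prop]
          exact ⟨i, hi, l, hl, hyW⟩
        · exact hN i l (not_lt.1 hl) ⟨y, hyW, hy⟩ ⟨z, hzW, hz⟩)
    refine ⟨{ u := Function.update s.u j0 u', v := Function.update s.v j0 v', kk := s.kk, S := S',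
              J := K 0 \ f '' Iio n, hu0 := ?_, huv := ?_, hv1 := ?_, hS := hS', hbox := ?_,
              hmiss := hdS', hJ := (hK2 0).diff ((Set.finite_Iio n).image f), hE := hES' },
            rfl, ?_, ?_, ?_⟩
    · intro j
      rcases eq_or_ne j j0 with rfl | hj
      · rw [Function.update_self]; exact (s.hu0 j).trans huu
      · rw [Function.update_of_ne hj]; exact s.hu0 j
    · intro j
      rcases eq_or_ne j j0 with rfl | hj
      · rw [Function.update_self, Function.update_self]; exact huv'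
      · rw [Function.update_of_ne hj, Function.update_of_ne hj]; exact s.huv j
    · intro j
      rcases eq_or_ne j j0 with rfl | hj
      · rw [Function.update_self]; exact hvv.trans (s.hv1 j)
      · rw [Function.update_of_ne hj]; exact s.hv1 j
    · intro x hx j
      obtain ⟨y, hy, rfl⟩ := hS'S hx
      rcases eq_or_ne j j0 with rfl | hj
      · rw [Function.update_self, Function.update_self]
        unfold tau
        rw [Function.update_self]
        exact ⟨huc, hcv⟩
      · rw [Function.update_of_ne hj, Function.update_of_ne hj]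
        unfold tau
        rw [Function.update_of_ne hj]
        exact s.hbox y hy.1 j
    · intro j
      rcases eq_or_ne j j0 with rfl | hj
      · show s.u j ≤ Function.update s.u j u' j
        rw [Function.update_self]; exact huu
      · show s.u j ≤ Function.update s.u j0 u' j
        rw [Function.update_of_ne hj]
    · intro j
      rcases eq_or_ne j j0 with rfl | hj
      · show Function.update s.v j v' j ≤ s.v j
        rw [Function.update_self]; exact hvv
      · show Function.update s.v j0 v' j ≤ s.v j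
        rw [Function.update_of_ne hj]
    · show q < Function.update s.u j0 u' j0 ∨ Function.update s.v j0 v' j0 < q
      rw [Function.update_self, Function.update_self]
      exact hq
  | succ m =>
    obtain ⟨δ, hδ, hside⟩ := pc_succ j0 q m
    have hb := s.hbox x1 hx1S j0
    obtain ⟨u', v', huu, hvv, huv', hin, hq⟩ : ∃ u' v' : ℝ, s.u j0 ≤ u' ∧ v' ≤ s.v j0 ∧ u' < v' ∧
        (∀ x ∈ s.S ∩ {x | pc j0 q (m + 1) x = 0}, u' ≤ (x j0 : ℝ) ∧ (x j0 : ℝ) ≤ v') ∧
        (q < u' ∨ v' < q) := by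
      rcases hside with h | h
      · have h1 := h x1 hx1
        refine ⟨max (s.u j0) (q + δ / 2), s.v j0, le_max_left _ _, le_rfl,
          max_lt (s.huv j0) (by linarith), fun x hx => ⟨?_, (s.hbox x hx.1 j0).2⟩, Or.inl ?_⟩
        · exact max_le (s.hbox x hx.1 j0).1 (by linarith [h x hx.2])
        · exact lt_of_lt_of_le (by linarith) (le_max_right _ _)
      · have h1 := h x1 hx1
        refine ⟨s.u j0, min (s.v j0) (q - δ / 2), le_rfl, min_le_left _ _,
          lt_min (s.huv j0) (by linarith), fun x hx => ⟨(s.hbox x hx.1 j0).1, ?_⟩, Or.inr ?_⟩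
        · exact le_min (s.hbox x hx.1 j0).2 (by linarith [h x hx.2])
        · exact lt_of_le_of_lt (min_le_right _ _) (by linarith)
    refine ⟨{ u := Function.update s.u j0 u', v := Function.update s.v j0 v', kk := s.kk,
              S := s.S ∩ {x | pc j0 q (m + 1) x = 0},
              J := K (m + 1), hu0 := ?_, huv := ?_, hv1 := ?_, hS := hcl, hbox := ?_,
              hmiss := fun i hi l => (s.hmiss i hi l).mono_left inter_subset_left,
              hJ := hK2 _, hE := hm },
            rfl, ?_, ?_, ?_⟩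
    · intro j
      rcases eq_or_ne j j0 with rfl | hj
      · rw [Function.update_self]; exact (s.hu0 j).trans huu
      · rw [Function.update_of_ne hj]; exact s.hu0 j
    · intro j
      rcases eq_or_ne j j0 with rfl | hj
      · rw [Function.update_self, Function.update_self]; exact huv'
      · rw [Function.update_of_ne hj, Function.update_of_ne hj]; exact s.huv j
    · intro j
      rcases eq_or_ne j j0 with rfl | hj
      · rw [Function.update_self]; exact hvv.trans (s.hv1 j)
      · rw [Function.update_of_ne hj]; exact s.hv1 j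
    · intro x hx j
      rcases eq_or_ne j j0 with rfl | hj
      · rw [Function.update_self, Function.update_self]
        exact hin x hx
      · rw [Function.update_of_ne hj, Function.update_of_ne hj]
        exact s.hbox x hx.1 j
    · intro j
      rcases eq_or_ne j j0 with rfl | hj
      · show s.u j ≤ Function.update s.u j u' j
        rw [Function.update_self]; exact huu
      · show s.u j ≤ Function.update s.u j0 u' j
        rw [Function.update_of_ne hj]
    · intro j
      rcases eq_or_ne j j0 with rfl | hj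
      · show Function.update s.v j v' j ≤ s.v j
        rw [Function.update_self]; exact hvv
      · show Function.update s.v j0 v' j ≤ s.v j
        rw [Function.update_of_ne hj]
    · show q < Function.update s.u j0 u' j0 ∨ Function.update s.v j0 v' j0 < q
      rw [Function.update_self, Function.update_self]
      exact hq

/-- the new family -/
theorem newfam (hdisj : ∀ i k, Pairwise (fun m n => Disjoint (closure (V i k m)) (closure (V i k n))))
    (hnull : ∀ i k, NullFam (fun n => closure (V i k n)))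
    (hmesh : ∀ i j : ℕ, ∃ k, ∀ n, (closure (V i k n) ∩ {x | x j = 0}).Nonempty →
      (closure (V i k n) ∩ {x | x j = 1}).Nonempty → False) {n : ℕ} (s : St V n) :
    ∃ s' : St V (n + 1), (∀ i < n, s'.kk i = s.kk i) ∧ s'.u = s.u ∧ s'.v = s.v := by
  classical
  obtain ⟨j, hj⟩ := s.hJ.nonempty
  obtain ⟨k, hk⟩ := hmesh n j
  obtain ⟨S', h1, h2, h3, h4⟩ := cut s.hS s.hE hj (W := fun l => closure (V n k l))
    (fun _ => isClosed_closure) (hnull n k) (hdisj n k) (by
      intro l ha hb
      exact hk l (ha.mono (inter_subset_inter_right _ inter_subset_right))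
        (hb.mono (inter_subset_inter_right _ inter_subset_right)))
  refine ⟨{ u := s.u, v := s.v, kk := Function.update s.kk n k, S := S', J := s.J \ {j},
            hu0 := s.hu0, huv := s.huv, hv1 := s.hv1, hS := h2, hbox := fun x hx => s.hbox x (h1 hx),
            hmiss := ?_, hJ := s.hJ.diff (Set.finite_singleton j), hE := h4 }, ?_, rfl, rfl⟩
  · intro i hi l
    rcases Nat.lt_succ_iff_lt_or_eq.1 hi with hi | rfl
    · rw [Function.update_of_ne hi.ne]
      exact (s.hmiss i hi l).mono_left h1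
    · rw [Function.update_self]
      exact h3 l
  · intro i hi
    show Function.update s.kk n k i = s.kk i
    rw [Function.update_of_ne hi.ne]

/-- one full step -/
theorem step (hdisj : ∀ i k, Pairwise (fun m n => Disjoint (closure (V i k m)) (closure (V i k n))))
    (hnull : ∀ i k, NullFam (fun n => closure (V i k n)))
    (hmesh : ∀ i j : ℕ, ∃ k, ∀ n, (closure (V i k n) ∩ {x | x j = 0}).Nonempty →
      (closure (V i k n) ∩ {x | x j = 1}).Nonempty → False) {n : ℕ} (s : St V n) (j0 : ℕ) (q : ℝ) :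
    ∃ s' : St V (n + 1), (∀ i < n, s'.kk i = s.kk i) ∧ (∀ j, s.u j ≤ s'.u j) ∧
      (∀ j, s'.v j ≤ s.v j) ∧ (q < s'.u j0 ∨ s'.v j0 < q) := by
  obtain ⟨s1, h1, h2, h3⟩ := newfam hdisj hnull hmesh s
  obtain ⟨s2, h4, h5, h6, h7⟩ := wall hdisj hnull s1 j0 q
  refine ⟨s2, fun i hi => by rw [h4, h1 i hi], fun j => ?_, fun j => ?_, h7⟩
  · rw [← h2]; exact h5 j
  · rw [← h3]; exact h6 j

end Step

/-- **Main theorem**: countably many N-type sets do not cover the points of the Hilbert cube with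
irrational coordinates. -/
theorem main (V : ℕ → ℕ → ℕ → Set HC) (hopen : ∀ i k n, IsOpen (V i k n))
    (hdisj : ∀ i k, Pairwise (fun m n => Disjoint (closure (V i k m)) (closure (V i k n))))
    (hnull : ∀ i k, NullFam (fun n => closure (V i k n)))
    (hmesh : ∀ i j : ℕ, ∃ k, ∀ n, (closure (V i k n) ∩ {x | x j = 0}).Nonempty →
      (closure (V i k n) ∩ {x | x j = 1}).Nonempty → False) :
    ∃ z : HC, (∀ j, Irrational (z j : ℝ)) ∧ ∀ i, z ∉ ⋂ k, ⋃ n, V i k n := by
  classical
  obtain ⟨e, he⟩ := exists_surjective_nat (ℕ × ℚ)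
  let s0 : St V 0 :=
    { u := fun _ => 0, v := fun _ => 1, kk := fun _ => 0, S := univ, J := univ,
      hu0 := fun _ => le_rfl, huv := fun _ => zero_lt_one, hv1 := fun _ => le_rfl,
      hS := isClosed_univ, hbox := fun x _ j => ⟨(x j).2.1, (x j).2.2⟩,
      hmiss := fun i hi => absurd hi (Nat.not_lt_zero _), hJ := Set.infinite_univ, hE := ess_univ }
  let s : ∀ n, St V n := fun n => Nat.rec (motive := fun n => St V n) s0
    (fun n t => Classical.choose (step hdisj hnull hmesh t (e n).1 ((e n).2 : ℝ))) n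
  have hs : ∀ n, (∀ i < n, (s (n + 1)).kk i = (s n).kk i) ∧ (∀ j, (s n).u j ≤ (s (n + 1)).u j) ∧
      (∀ j, (s (n + 1)).v j ≤ (s n).v j) ∧
      ((((e n).2 : ℝ)) < (s (n + 1)).u (e n).1 ∨ (s (n + 1)).v (e n).1 < ((e n).2 : ℝ)) := fun n =>
    Classical.choose_spec (step hdisj hnull hmesh (s n) (e n).1 ((e n).2 : ℝ))
  have hu : ∀ j, Monotone (fun n => (s n).u j) := fun j => monotone_nat_of_le_succ (fun n => (hs n).2.1 j)
  have hv : ∀ j, Antitone (fun n => (s n).v j) := fun j => antitone_nat_of_succ_le (fun n => (hs n).2.2.1 j)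
  have hkk : ∀ i m, i < m → (s m).kk i = (s (i + 1)).kk i := by
    intro i m him
    induction m with
    | zero => omega
    | succ m ih =>
      rcases Nat.lt_succ_iff_lt_or_eq.1 him with h | rfl
      · rw [(hs m).1 i h, ih h]
      · rfl
  have hne : ∀ n, ∃ x, x ∈ (s n).S := fun n => (s n).hE.nonempty
  choose x hx using hne
  obtain ⟨z, -, φ, hφ, hz⟩ := isCompact_univ.tendsto_subseq (x := x) (fun n => mem_univ _)
  have hzbox : ∀ n j, (s n).u j ≤ (z j : ℝ) ∧ (z j : ℝ) ≤ (s n).v j := by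
    intro n j
    have ht : Tendsto (fun m => ((x (φ m) j : unitInterval) : ℝ)) atTop (𝓝 (z j : ℝ)) := by
      have hc : Continuous (fun y : HC => ((y j : unitInterval) : ℝ)) := by fun_prop
      exact (hc.tendsto z).comp hz
    constructor
    · refine ge_of_tendsto ht ?_
      filter_upwards [eventually_ge_atTop n] with m hm
      have h1 : n ≤ φ m := hm.trans (hφ.id_le m)
      exact (hu j h1).trans ((s (φ m)).hbox _ (hx _) j).1
    · refine le_of_tendsto ht ?_
      filter_upwards [eventually_ge_atTop n] with m hm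
      have h1 : n ≤ φ m := hm.trans (hφ.id_le m)
      exact ((s (φ m)).hbox _ (hx _) j).2.trans (hv j h1)
  refine ⟨z, ?_, ?_⟩
  · rintro j ⟨r, hr⟩
    obtain ⟨n, hn⟩ := he (j, r)
    have h1 := (hs n).2.2.2
    have h2 := hzbox (n + 1) j
    rw [hn] at h1
    simp only at h1
    rw [hr] at h1
    rcases h1 with h1 | h1
    · linarith [h2.1]
    · linarith [h2.2]
  · intro i hzi
    have h1 := mem_iInter.1 hzi ((s (i + 1)).kk i)
    obtain ⟨l, hl⟩ := mem_iUnion.1 h1
    have h2 : ∀ᶠ m in atTop, x (φ m) ∈ V i ((s (i + 1)).kk i) l :=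
      hz.eventually ((hopen i _ l).mem_nhds hl)
    obtain ⟨m, hm1, hm2⟩ := (h2.and (eventually_ge_atTop (i + 1))).exists
    have h3 : i < φ m := lt_of_lt_of_le hm2 (hφ.id_le m)
    have h4 := (s (φ m)).hmiss i h3 l
    rw [hkk i _ h3] at h4
    exact Set.disjoint_left.1 h4 (hx _) (subset_closure hm1)

end Pool.Helper86.MG
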