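import Mathlib

/-! Separating two disjoint closed sets by the zero set of a continuous function that misses
all members of a null family of pairwise disjoint closed sets. -/

namespace Pool.Helper86.MG

open Set Filter Topology

section

variable {X : Type*} [TopologicalSpace X]

/-- saturation of a set with respect to a family -/
def sat (W : ℕ → Set X) (F : Set X) : Set X := F ∪ ⋃ n, ⋃ (_ : (W n ∩ F).Nonempty), W n

/-- null family (topological form) -/
def NullFam (W : ℕ → Set X) : Prop :=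
  ∀ x, ∀ U ∈ 𝓝 x, ∃ V ∈ 𝓝 x, ∃ N, ∀ n ≥ N, (W n ∩ V).Nonempty → W n ⊆ U

/-- saturated set -/
def Satd (W : ℕ → Set X) (u : Set X) : Prop := ∀ n, (W n ∩ u).Nonempty → W n ⊆ u

theorem mem_sat {W : ℕ → Set X} {F : Set X} {x : X} :
    x ∈ sat W F ↔ x ∈ F ∨ ∃ n, (W n ∩ F).Nonempty ∧ x ∈ W n := by
  unfold sat
  simp only [Set.mem_union, Set.mem_iUnion, exists_prop]

theorem subset_sat (W : ℕ → Set X) (F : Set X) : F ⊆ sat W F := fun _ hx => mem_sat.2 (Or.inl hx)

theorem isClosed_sat {W : ℕ → Set X} (hW : ∀ n, IsClosed (W n)) (hnull : NullFam W) {F : Set X}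
    (hF : IsClosed F) : IsClosed (sat W F) := by
  classical
  rw [← isOpen_compl_iff, isOpen_iff_mem_nhds]
  intro x hx
  have hx' : x ∉ sat W F := hx
  rw [mem_sat] at hx'
  push Not at hx'
  obtain ⟨hxF, hxW⟩ := hx'
  have hU : Fᶜ ∈ 𝓝 x := hF.isOpen_compl.mem_nhds hxF
  obtain ⟨V, hV, N, hN⟩ := hnull x _ hU
  have hfin : (⋂ n ∈ (Finset.range N).filter (fun n => (W n ∩ F).Nonempty), (W n)ᶜ) ∈ 𝓝 x := by
    rw [Filter.biInter_finset_mem]
    intro n hn
    rw [Finset.mem_filter] at hn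
    exact (hW n).isOpen_compl.mem_nhds (hxW n hn.2)
  filter_upwards [hU, hV, hfin] with y hyU hyV hyf
  intro hy
  rw [mem_sat] at hy
  rcases hy with hy | ⟨n, hn, hy⟩
  · exact hyU hy
  · by_cases hnN : N ≤ n
    · have := hN n hnN ⟨y, hy, hyV⟩
      obtain ⟨z, hz1, hz2⟩ := hn
      exact this hz1 hz2
    · rw [Set.mem_iInter₂] at hyf
      exact hyf n (Finset.mem_filter.2 ⟨Finset.mem_range.2 (by omega), hn⟩) hy

theorem satd_sat {W : ℕ → Set X} (hd : Pairwise (fun m n => Disjoint (W m) (W n))) (F : Set X) :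
    Satd W (sat W F) := by
  intro n hn x hx
  obtain ⟨y, hy1, hy2⟩ := hn
  rw [mem_sat] at hy2 ⊢
  rcases hy2 with hy2 | ⟨m, hm, hy2⟩
  · exact Or.inr ⟨n, ⟨y, hy1, hy2⟩, hx⟩
  · by_cases h : m = n
    · subst h
      exact Or.inr ⟨m, hm, hx⟩
    · exact absurd hy1 (Set.disjoint_left.1 (hd h) hy2)

theorem Satd.compl {W : ℕ → Set X} {u : Set X} (h : Satd W u) : Satd W uᶜ := by
  intro n hn x hx hxu
  obtain ⟨y, hy1, hy2⟩ := hn
  exact hy2 (h n ⟨x, hx, hxu⟩ hy1)

/-- the predicate used in Urysohn's construction -/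
def PP (W : ℕ → Set X) (c u : Set X) : Prop := sat W c ⊆ u ∧ Satd W u

theorem PP_step [NormalSpace X] {W : ℕ → Set X} (hW : ∀ n, IsClosed (W n)) (hnull : NullFam W)
    (hd : Pairwise (fun m n => Disjoint (W m) (W n))) {c u : Set X} (hc : IsClosed c)
    (hP : PP W c u) (hu : IsOpen u) :
    ∃ v, IsOpen v ∧ c ⊆ v ∧ closure v ⊆ u ∧ PP W c v ∧ PP W (closure v) u := by
  obtain ⟨h1, h2⟩ := hP
  obtain ⟨O, hO, hcO, hOu⟩ := normal_exists_closure_subset (isClosed_sat hW hnull hc) hu h1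
  refine ⟨(sat W Oᶜ)ᶜ, (isClosed_sat hW hnull hO.isClosed_compl).isOpen_compl, ?_, ?_, ⟨?_, ?_⟩,
    ⟨?_, h2⟩⟩
  · intro x hx hxs
    rw [mem_sat] at hxs
    rcases hxs with h | ⟨n, ⟨y, hy1, hy2⟩, hxn⟩
    · exact h (hcO (subset_sat W c hx))
    · exact hy2 (hcO (mem_sat.2 (Or.inr ⟨n, ⟨x, hxn, hx⟩, hy1⟩)))
  · refine (closure_mono ?_).trans hOu
    intro x hx
    by_contra hxO
    exact hx (subset_sat W _ hxO)
  · intro x hx hxs
    have hs := satd_sat hd c
    rw [mem_sat] at hxs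
    rcases hxs with h | ⟨n, ⟨y, hy1, hy2⟩, hxn⟩
    · exact h (hcO hx)
    · exact hy2 (hcO (hs n ⟨x, hxn, hx⟩ hy1))
  · exact (satd_sat hd _).compl
  · intro x hx
    rw [mem_sat] at hx
    have hcl : closure (sat W Oᶜ)ᶜ ⊆ u := by
      refine (closure_mono ?_).trans hOu
      intro x hx
      by_contra hxO
      exact hx (subset_sat W _ hxO)
    rcases hx with hx | ⟨n, ⟨y, hy1, hy2⟩, hxn⟩
    · exact hcl hx
    · exact h2 n ⟨y, hy1, hcl hy2⟩ hxn

theorem approx_const {W : ℕ → Set X} (k : ℕ) : ∀ (c : Urysohns.CU (PP W)) {m : ℕ} {x y : X},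
    x ∈ W m → y ∈ W m → c.approx k x = c.approx k y := by
  induction k with
  | zero =>
    intro c m x y hx hy
    have h := c.P_C_U.2
    have hiff : x ∈ c.U ↔ y ∈ c.U :=
      ⟨fun hxu => h m ⟨x, hx, hxu⟩ hy, fun hyu => h m ⟨y, hy, hyu⟩ hx⟩
    simp only [Urysohns.CU.approx, Set.indicator, Set.mem_compl_iff]
    by_cases hxu : x ∈ c.U
    · simp [hxu, hiff.1 hxu]
    · have : y ∉ c.U := fun h' => hxu (hiff.2 h')
      simp [hxu, this]
  | succ k ih =>
    intro c m x y hx hy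
    simp only [Urysohns.CU.approx]
    rw [ih c.left hx hy, ih c.right hx hy]

/-- **Separation missing a null family.** -/
theorem sep [NormalSpace X] {A B : Set X} (hA : IsClosed A) (hB : IsClosed B) (hAB : Disjoint A B)
    {W : ℕ → Set X} (hW : ∀ n, IsClosed (W n)) (hnull : NullFam W)
    (hd : Pairwise (fun m n => Disjoint (W m) (W n)))
    (hAW : ∀ n, (W n ∩ A).Nonempty → (W n ∩ B).Nonempty → False) :
    ∃ g : C(X, ℝ), (∀ x ∈ A, g x < 0) ∧ (∀ x ∈ B, 0 < g x) ∧ ∀ n, ∀ x ∈ W n, g x ≠ 0 := by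
  have hsub : sat W A ⊆ (sat W B)ᶜ := by
    intro x hx hx'
    rw [mem_sat] at hx hx'
    rcases hx with hx | ⟨m, hm, hx⟩ <;> rcases hx' with hx' | ⟨n, hn, hx'⟩
    · exact Set.disjoint_left.1 hAB hx hx'
    · exact hAW n ⟨x, hx', hx⟩ hn
    · exact hAW m hm ⟨x, hx, hx'⟩
    · by_cases h : m = n
      · subst h; exact hAW m hm hn
      · exact Set.disjoint_left.1 (hd h) hx hx'
  let c : Urysohns.CU (PP W) :=
    { C := A
      U := (sat W B)ᶜ
      P_C_U := ⟨hsub, (satd_sat hd B).compl⟩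
      closed_C := hA
      open_U := (isClosed_sat hW hnull hB).isOpen_compl
      subset := (subset_sat W A).trans hsub
      hP := fun {c u} hc hP hu _ => PP_step hW hnull hd hc hP hu }
  have hconst : ∀ n, ∀ x ∈ W n, ∀ y ∈ W n, c.lim x = c.lim y := by
    intro n x hx y hy
    unfold Urysohns.CU.lim
    congr 1
    funext k
    exact approx_const k c hx hy
  have hcount : (⋃ n, c.lim '' W n).Countable := by
    refine Set.countable_iUnion (fun n => ?_)
    refine Set.Subsingleton.countable ?_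
    rintro _ ⟨x, hx, rfl⟩ _ ⟨y, hy, rfl⟩
    exact hconst n x hx y hy
  obtain ⟨t, ht1, ht2⟩ := (hcount.dense_compl ℝ).exists_between (show (0 : ℝ) < 1 by norm_num)
  refine ⟨⟨fun x => c.lim x - t, c.continuous_lim.sub continuous_const⟩, ?_, ?_, ?_⟩
  · intro x hx
    have : c.lim x = 0 := c.lim_of_mem_C x hx
    simp only [ContinuousMap.coe_mk, this]
    linarith [ht2.1]
  · intro x hx
    have : c.lim x = 1 := c.lim_of_notMem_U x (fun h => h (subset_sat W B hx))
    simp only [ContinuousMap.coe_mk, this]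
    linarith [ht2.2]
  · intro n x hx h
    apply ht1
    rw [Set.mem_iUnion]
    refine ⟨n, x, hx, ?_⟩
    simp only [ContinuousMap.coe_mk] at h
    linarith

end

/-- metric form of the null condition -/
theorem nullFam_of_diam {X : Type*} [PseudoMetricSpace X] {W : ℕ → Set X}
    (hb : ∀ n, Bornology.IsBounded (W n))
    (hdiam : Tendsto (fun n => Metric.diam (W n)) atTop (𝓝 0)) : NullFam W := by
  intro x U hU
  obtain ⟨ε, hε, hball⟩ := Metric.mem_nhds_iff.1 hU
  obtain ⟨N, hN⟩ := (Metric.tendsto_atTop.1 hdiam) (ε / 2) (by positivity)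
  refine ⟨Metric.ball x (ε / 2), Metric.ball_mem_nhds x (by positivity), N, ?_⟩
  rintro n hn ⟨y, hy1, hy2⟩ z hz
  apply hball
  have h1 := hN n hn
  rw [Real.dist_eq, sub_zero, abs_of_nonneg Metric.diam_nonneg] at h1
  have h2 := Metric.dist_le_diam_of_mem (hb n) hz hy1
  rw [Metric.mem_ball] at hy2 ⊢
  linarith [dist_triangle z y x]

end Pool.Helper86.MG
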